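import Mathlib

set_option autoImplicit false

/-!
# SP2-L: numbers
-/

namespace Pool.Agent.Helper74.SP

/-- the case of a large root -/
theorem numeric2_aux {m s x k t D β : ℕ} (hs : 1 ≤ s) (hsx : s ≤ x) (hk : 1 ≤ k)
    (ht : 1 ≤ t) (htriv : m ^ 2 ≤ 6 * s * D) (hm : 120 ≤ m) (hβ : 2 ≤ β)
    (hbk : (60 * β * t) ^ k ≤ m)
    {y : ℝ} (hy1 : 1 ≤ y) (hyk : y ^ k = m) (h1 : 60 * (t : ℝ) * β ≤ y)
    (h2 : y ≤ 120 * (t : ℝ) * β)
    (hmain : ∀ β l r0 N, 1 ≤ β → 1 ≤ l → s * l ≤ x → (60 * β * t) ^ k ≤ m → r0 ≤ k →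
      20 * x * β ≤ (60 * β * t) ^ r0 → D ≤ N * (l * β ^ (k - r0)) →
      N * (l * β ^ (k - r0)) ≤ D + m → m ^ 2 ≤ 72 * x * N) :
    (m : ℝ) ^ 3 ≤ (6 * (120 * (t : ℝ)) ^ k * s * x * D) * y ^ 2 := by
  have hsR : (1 : ℝ) ≤ s := by exact_mod_cast hs
  have hxR : (1 : ℝ) ≤ x := by exact_mod_cast hs.trans hsx
  have htR : (1 : ℝ) ≤ t := by exact_mod_cast ht
  have hβR : (2 : ℝ) ≤ β := by exact_mod_cast hβ
  have hDR : (0 : ℝ) ≤ D := Nat.cast_nonneg D
  have htrivR : (m : ℝ) ^ 2 ≤ 6 * s * D := by exact_mod_cast htriv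
  have hmR : (0 : ℝ) ≤ m := Nat.cast_nonneg m
  have hyy : y ≤ y ^ 2 := by nlinarith only [h1, htR, hβR, hy1]
  have hmb : (m : ℝ) ≤ 2 ^ k * ((60 * β * t : ℕ) : ℝ) ^ k := by
    rw [← hyk, ← mul_pow]
    apply pow_le_pow_left₀ (by linarith only [hy1])
    push_cast
    linarith only [h2]
  rcases lt_or_ge ((60 * β * t) ^ k) (20 * x * β) with hc | hc
  · -- (2a)
    have hcR : (((60 * β * t : ℕ) : ℝ)) ^ k ≤ 20 * x * β := by exact_mod_cast hc.le
    have e1 : (m : ℝ) ≤ 2 ^ k * (20 * x * β) :=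
      hmb.trans (mul_le_mul_of_nonneg_left hcR (by positivity))
    have e2 : (20 : ℝ) * x * β ≤ x * y := by
      have : (20 : ℝ) * β ≤ y := by nlinarith only [h1, htR, hβR]
      nlinarith only [this]
    have e3 : (m : ℝ) ≤ 2 ^ k * (x * y) :=
      e1.trans (mul_le_mul_of_nonneg_left e2 (by positivity))
    have e4 : (2 : ℝ) ^ k ≤ (120 * (t : ℝ)) ^ k := by
      apply pow_le_pow_left₀ (by norm_num)
      linarith only [htR]
    calc (m : ℝ) ^ 3 = (m : ℝ) ^ 2 * (m : ℝ) := by ring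
      _ ≤ (6 * (s : ℝ) * D) * (m : ℝ) := mul_le_mul_of_nonneg_right htrivR hmR
      _ ≤ (6 * (s : ℝ) * D) * (2 ^ k * ((x : ℝ) * y)) := mul_le_mul_of_nonneg_left e3 (by positivity)
      _ ≤ (6 * (s : ℝ) * D) * ((120 * (t : ℝ)) ^ k * ((x : ℝ) * y ^ 2)) := by
          apply mul_le_mul_of_nonneg_left _ (by positivity)
          apply mul_le_mul e4 _ (by positivity) (by positivity)
          exact mul_le_mul_of_nonneg_left hyy (by linarith)
      _ = (6 * (120 * (t : ℝ)) ^ k * s * x * D) * y ^ 2 := by ring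
  · -- (2b)
    have hex : ∃ r, 20 * x * β ≤ (60 * β * t) ^ r := ⟨k, hc⟩
    classical
    set r0 := Nat.find hex with hr0
    have hr1 : 20 * x * β ≤ (60 * β * t) ^ r0 := Nat.find_spec hex
    have hr2 : r0 ≤ k := Nat.find_min' hex hc
    have hxpos : 1 ≤ x := hs.trans hsx
    have hr3 : 1 ≤ r0 := by
      by_contra h
      have h0 : r0 = 0 := by omega
      rw [h0, pow_zero] at hr1
      have : 20 * 1 * 2 ≤ 20 * x * β := Nat.mul_le_mul (Nat.mul_le_mul_left 20 hxpos) hβ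
      omega
    have hr4 : (60 * β * t) ^ (r0 - 1) < 20 * x * β := by
      have := Nat.find_min hex (m := r0 - 1) (by omega)
      exact not_le.1 this
    set l := x / s with hl
    have hl1 : 1 ≤ l := (Nat.one_le_div_iff (by omega)).2 hsx
    have hl2 : s * l ≤ x := Nat.mul_div_le x s
    have hl3 : x < s * (l + 1) := Nat.lt_mul_div_succ x (by omega)
    have hbβ : β ≤ 60 * β * t := by nlinarith only [ht, hβ]
    have hb1 : 1 ≤ 60 * β * t := by linarith only [hβ, hbβ]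
    have hxb : x ≤ (60 * β * t) ^ r0 := by nlinarith only [hr1, hβ]
    have hlx : l ≤ x := by
      have : 1 * l ≤ s * l := Nat.mul_le_mul_right l hs
      omega
    have hLm : l * β ^ (k - r0) ≤ m := by
      calc l * β ^ (k - r0) ≤ (60 * β * t) ^ r0 * (60 * β * t) ^ (k - r0) :=
            Nat.mul_le_mul (hlx.trans hxb) (Nat.pow_le_pow_left hbβ _)
        _ = (60 * β * t) ^ k := by rw [← pow_add]; congr 1; omega
        _ ≤ m := hbk
    have hLpos : 1 ≤ l * β ^ (k - r0) := Nat.mul_pos hl1 (pow_pos (by omega) _)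
    set L := l * β ^ (k - r0) with hL
    have hN := hmain β l r0 ((D + L - 1) / L) (by omega) hl1 hl2 hbk hr2 hr1
    have hN1 : D ≤ (D + L - 1) / L * L := by
      have h3 := Nat.div_add_mod (D + L - 1) L
      have h4 := Nat.mod_lt (D + L - 1) (show 0 < L by omega)
      rw [mul_comm] at h3
      omega
    have hN2 : (D + L - 1) / L * L ≤ D + L := by
      have := Nat.div_mul_le_self (D + L - 1) L
      omega
    have hN3 : m ^ 2 ≤ 72 * x * ((D + L - 1) / L) := hN hN1 (hN2.trans (by omega))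
    set N := (D + L - 1) / L with hNdef
    have hN2R : (N : ℝ) * L ≤ D + L := by exact_mod_cast hN2
    have hN3R : (m : ℝ) ^ 2 ≤ 72 * x * N := by exact_mod_cast hN3
    have hLR : (0 : ℝ) ≤ L := Nat.cast_nonneg L
    -- m^2 L ≤ 144 x D
    have hx40 : 40 * x ≤ m := by
      have h3 : 20 * x * β ≤ m := by
        refine hc.trans hbk
      nlinarith only [hbk, hc, hβ]
    have hx144 : (144 : ℝ) * x ≤ (m : ℝ) ^ 2 := by
      have h3 : (40 : ℝ) * x ≤ m := by exact_mod_cast hx40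
      have h4 : (120 : ℝ) ≤ m := by exact_mod_cast hm
      nlinarith only [h4, h3]
    have e1 : (m : ℝ) ^ 2 * L ≤ 144 * x * D := by
      have h3 : (m : ℝ) ^ 2 * L ≤ 72 * x * (N * L) := by
        calc (m : ℝ) ^ 2 * L ≤ (72 * x * N) * L := mul_le_mul_of_nonneg_right hN3R hLR
          _ = 72 * x * (N * L) := by ring
      have h4 : 72 * (x : ℝ) * (N * L) ≤ 72 * x * (D + L) :=
        mul_le_mul_of_nonneg_left hN2R (by positivity)
      have h5 : 144 * (x : ℝ) * L ≤ (m : ℝ) ^ 2 * L := mul_le_mul_of_nonneg_right hx144 hLR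
      linarith only [h3, h4, h5]
    -- β^r0 ≤ 20 x β^2
    have e2 : β ^ r0 ≤ 20 * x * β ^ 2 := by
      have h3 : β ^ r0 * (60 * t) ^ r0 = (60 * β * t) ^ (r0 - 1) * (60 * β * t) := by
        rw [← mul_pow, ← pow_succ, show r0 - 1 + 1 = r0 by omega]
        congr 1; ring
      have h4 : β ^ r0 * (60 * t) ≤ β ^ r0 * (60 * t) ^ r0 := by
        apply Nat.mul_le_mul_left
        calc 60 * t = (60 * t) ^ 1 := (pow_one _).symm
          _ ≤ (60 * t) ^ r0 := Nat.pow_le_pow_right (by omega) hr3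
      have h5 : (60 * β * t) ^ (r0 - 1) * (60 * β * t) ≤ (20 * x * β) * (60 * β * t) :=
        Nat.mul_le_mul_right _ hr4.le
      have h6 : β ^ r0 * (60 * t) ≤ (20 * x * β ^ 2) * (60 * t) := by
        calc β ^ r0 * (60 * t) ≤ (20 * x * β) * (60 * β * t) := h4.trans (h3 ▸ h5)
          _ = (20 * x * β ^ 2) * (60 * t) := by ring
      exact Nat.le_of_mul_le_mul_right h6 (by omega)
    have e3 : (l : ℝ) * (β : ℝ) ^ k ≤ L * (20 * x * (β : ℝ) ^ 2) := by
      have h3 : l * β ^ k = L * β ^ r0 := by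
        rw [hL, mul_assoc, ← pow_add]
        congr 2; omega
      have h4 : l * β ^ k ≤ L * (20 * x * β ^ 2) := by
        rw [h3]; exact Nat.mul_le_mul_left _ e2
      exact_mod_cast h4
    have e4 : (x : ℝ) ≤ 2 * s * l := by
      have h3 : x ≤ 2 * s * l := by nlinarith only [hl3, hl1]
      exact_mod_cast h3
    have hβk : (m : ℝ) ≤ (120 * (t : ℝ)) ^ k * (β : ℝ) ^ k := by
      rw [← hyk, ← mul_pow]
      exact pow_le_pow_left₀ (by linarith only [hy1]) h2 k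
    have hβ2 : 3600 * (β : ℝ) ^ 2 ≤ y ^ 2 := by
      have h3 : 60 * (β : ℝ) ≤ y := by nlinarith only [h1, htR]
      nlinarith only [h3, htR, h1, hy1]
    -- combine: m^2 β^k ≤ 5760 s x β^2 D
    have e5 : (m : ℝ) ^ 2 * (β : ℝ) ^ k ≤ 5760 * s * x * (β : ℝ) ^ 2 * D := by
      have h3 : (x : ℝ) * ((m : ℝ) ^ 2 * (β : ℝ) ^ k) ≤
          x * (5760 * s * x * (β : ℝ) ^ 2 * D) := by
        calc (x : ℝ) * ((m : ℝ) ^ 2 * (β : ℝ) ^ k)
            ≤ (2 * s * l) * ((m : ℝ) ^ 2 * (β : ℝ) ^ k) :=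
              mul_le_mul_of_nonneg_right e4 (by positivity)
          _ = (2 * s * (m : ℝ) ^ 2) * (l * (β : ℝ) ^ k) := by ring
          _ ≤ (2 * s * (m : ℝ) ^ 2) * (L * (20 * x * (β : ℝ) ^ 2)) :=
              mul_le_mul_of_nonneg_left e3 (by positivity)
          _ = (40 * s * x * (β : ℝ) ^ 2) * ((m : ℝ) ^ 2 * L) := by ring
          _ ≤ (40 * s * x * (β : ℝ) ^ 2) * (144 * x * D) :=
              mul_le_mul_of_nonneg_left e1 (by positivity)
          _ = x * (5760 * s * x * (β : ℝ) ^ 2 * D) := by ring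
      exact le_of_mul_le_mul_left h3 (by linarith only [hxR])
    calc (m : ℝ) ^ 3 = (m : ℝ) ^ 2 * m := by ring
      _ ≤ (m : ℝ) ^ 2 * ((120 * (t : ℝ)) ^ k * (β : ℝ) ^ k) :=
          mul_le_mul_of_nonneg_left hβk (by positivity)
      _ = (120 * (t : ℝ)) ^ k * ((m : ℝ) ^ 2 * (β : ℝ) ^ k) := by ring
      _ ≤ (120 * (t : ℝ)) ^ k * (5760 * s * x * (β : ℝ) ^ 2 * D) :=
          mul_le_mul_of_nonneg_left e5 (by positivity)
      _ = ((120 * (t : ℝ)) ^ k * s * x * D) * (5760 * (β : ℝ) ^ 2) := by ring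
      _ ≤ ((120 * (t : ℝ)) ^ k * s * x * D) * (6 * y ^ 2) :=
          mul_le_mul_of_nonneg_left (by linarith only [hy1, hyy, hβ2]) (by positivity)
      _ = (6 * (120 * (t : ℝ)) ^ k * s * x * D) * y ^ 2 := by ring

/-- SP2-L. -/
theorem numeric2 {m s x k t D : ℕ} (hm : 1 ≤ m) (hs : 1 ≤ s) (hsx : s ≤ x) (hk : 1 ≤ k)
    (ht : 1 ≤ t) (htriv : m ^ 2 ≤ 6 * s * D)
    (hmain : ∀ β l r0 N, 1 ≤ β → 1 ≤ l → s * l ≤ x → (60 * β * t) ^ k ≤ m → r0 ≤ k →
      20 * x * β ≤ (60 * β * t) ^ r0 → D ≤ N * (l * β ^ (k - r0)) →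
      N * (l * β ^ (k - r0)) ≤ D + m → m ^ 2 ≤ 72 * x * N) :
    (m : ℝ) ^ (3 - 2 / (k : ℝ)) ≤ 6 * (120 * (t : ℝ)) ^ k * s * x * D := by
  have hm1 : (1 : ℝ) ≤ m := by exact_mod_cast hm
  have hm0 : (0 : ℝ) < m := by linarith
  have hk0 : (k : ℝ) ≠ 0 := by
    have : (1 : ℝ) ≤ k := by exact_mod_cast hk
    linarith
  have hsR : (1 : ℝ) ≤ s := by exact_mod_cast hs
  have hxR : (1 : ℝ) ≤ x := by exact_mod_cast hs.trans hsx
  have htR : (1 : ℝ) ≤ t := by exact_mod_cast ht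
  have hDR : (0 : ℝ) ≤ D := Nat.cast_nonneg D
  set y : ℝ := (m : ℝ) ^ (1 / (k : ℝ)) with hy
  have hyk : y ^ k = m := by
    rw [hy, ← Real.rpow_natCast, ← Real.rpow_mul hm0.le, one_div, inv_mul_cancel₀ hk0,
      Real.rpow_one]
  have hy1 : 1 ≤ y := Real.one_le_rpow hm1 (by positivity)
  have hkey : (m : ℝ) ^ 3 ≤ (6 * (120 * (t : ℝ)) ^ k * s * x * D) * y ^ 2 := by
    rcases lt_or_ge y (120 * t) with hc | hc
    · have htrivR : (m : ℝ) ^ 2 ≤ 6 * s * D := by exact_mod_cast htriv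
      have e1 : (m : ℝ) ≤ (120 * (t : ℝ)) ^ k := by
        rw [← hyk]; exact pow_le_pow_left₀ (by linarith) hc.le k
      have e2 : (1 : ℝ) ≤ x * y ^ 2 := by nlinarith only [hy1, hxR, one_le_pow₀ hy1 (n := 2)]
      calc (m : ℝ) ^ 3 = (m : ℝ) ^ 2 * (m : ℝ) := by ring
        _ ≤ (6 * (s : ℝ) * D) * (120 * (t : ℝ)) ^ k := by
            apply mul_le_mul htrivR e1 hm0.le (by positivity)
        _ = ((6 * (s : ℝ) * D) * (120 * (t : ℝ)) ^ k) * 1 := by ring
        _ ≤ ((6 * (s : ℝ) * D) * (120 * (t : ℝ)) ^ k) * ((x : ℝ) * y ^ 2) :=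
            mul_le_mul_of_nonneg_left e2 (by positivity)
        _ = (6 * (120 * (t : ℝ)) ^ k * s * x * D) * y ^ 2 := by ring
    · have htpos : (0 : ℝ) < 60 * t := by linarith
      set β := ⌊y / (60 * (t : ℝ))⌋₊ with hβ
      have hz : 2 ≤ y / (60 * (t : ℝ)) := by
        rw [le_div_iff₀ htpos]; linarith only [hc]
      have hβ2 : 2 ≤ β := Nat.le_floor (by exact_mod_cast hz)
      have h1 : 60 * (t : ℝ) * β ≤ y := by
        have := Nat.floor_le (show 0 ≤ y / (60 * (t : ℝ)) by positivity)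
        rw [← hβ, le_div_iff₀ htpos] at this
        linarith only [this]
      have h2 : y ≤ 120 * (t : ℝ) * β := by
        have h3 := Nat.lt_floor_add_one (y / (60 * (t : ℝ)))
        rw [← hβ, div_lt_iff₀ htpos] at h3
        have h4 : (2 : ℝ) ≤ β := by exact_mod_cast hβ2
        linarith only [hc, h3]
      have hbk : (60 * β * t) ^ k ≤ m := by
        have h3 : (((60 * β * t : ℕ) : ℝ)) ^ k ≤ m := by
          rw [← hyk]
          apply pow_le_pow_left₀ (by positivity)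
          push_cast
          linarith only [h1]
        exact_mod_cast h3
      have hm120 : 120 ≤ m := by
        have h3 : (120 : ℝ) ≤ m := by
          rw [← hyk]
          calc (120 : ℝ) ≤ y := by linarith only [htR, hc]
            _ = y ^ 1 := (pow_one y).symm
            _ ≤ y ^ k := pow_le_pow_right₀ hy1 hk
        exact_mod_cast h3
      exact numeric2_aux hs hsx hk ht htriv hm120 hβ2 hbk hy1 hyk h1 h2 hmain
  have hexp : (m : ℝ) ^ (3 - 2 / (k : ℝ)) = (m : ℝ) ^ 3 / y ^ 2 := by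
    rw [Real.rpow_sub hm0]
    congr 1
    · exact_mod_cast Real.rpow_natCast (m : ℝ) 3
    · rw [hy, ← Real.rpow_natCast, ← Real.rpow_mul hm0.le]
      congr 1
      push_cast
      ring
  rw [hexp, div_le_iff₀ (by positivity)]
  exact hkey

end Pool.Agent.Helper74.SP
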