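import Pool.Agent.Helper23.SP.Basic

set_option autoImplicit false

/-!
# SP-H123: the instances
-/

namespace Pool.Agent.Helper74.SP

open Finset
open Pool.Agent.Helper23.SP
open Pool.Agent.Helper22.ETModel Pool.Agent.Helper22.TSModel

lemma digits_lt (Y : ℕ) : ∀ (k : ℕ) (f : Fin k → ℕ), (∀ r, f r < Y) →
    ∑ r : Fin k, Y ^ (k - 1 - r.val) * f r < Y ^ k := by
  intro k
  induction k with
  | zero => intro f _; simp
  | succ k ih =>
    intro f hf
    rw [Fin.sum_univ_succ]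
    have h1 := ih (fun r => f r.succ) (fun r => hf _)
    have e1 : ∀ r : Fin k, k + 1 - 1 - (r.succ : Fin (k + 1)).val = k - 1 - r.val := by
      intro r
      rw [Fin.val_succ]
      omega
    simp only [e1]
    have h2 : f 0 + 1 ≤ Y := hf 0
    have h3 : Y ^ (k + 1 - 1 - (0 : Fin (k + 1)).val) = Y ^ k := by
      congr 1
    rw [h3]
    calc Y ^ k * f 0 + ∑ r : Fin k, Y ^ (k - 1 - r.val) * f r.succ
        < Y ^ k * f 0 + Y ^ k := by omega
      _ = Y ^ k * (f 0 + 1) := by ring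
      _ ≤ Y ^ k * Y := Nat.mul_le_mul_left _ h2
      _ = Y ^ (k + 1) := by ring

section instances

variable {m n k b U L Y : ℕ} [NeZero b]

lemma value_bound {mu : Fin U → ℕ} (hM : ∀ u, mu u < Y) (hL : 1 ≤ L) (ω : Om (E m) k b U)
    {tiny : E m → ℤ} (ht : ∀ e, tiny e = 0 ∨ tiny e = 1) (e : E m) :
    0 ≤ value L Y mu ω tiny e ∧ value L Y mu ω tiny e ≤ ((L * Y ^ k : ℕ) : ℤ) := by
  have h1 := digits_lt Y k (fun r => mu (g r ω e)) (fun r => hM _)
  have h2 : value L Y mu ω tiny e =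
      ((L * ∑ r : Fin k, Y ^ (k - 1 - r.val) * mu (g r ω e) : ℕ) : ℤ) + tiny e := by
    unfold value
    push_cast
    rfl
  rw [h2]
  have h3 : L * (∑ r : Fin k, Y ^ (k - 1 - r.val) * mu (g r ω e)) + L ≤ L * Y ^ k := by
    have := Nat.mul_le_mul_left L (Nat.succ_le_of_lt h1)
    rw [Nat.mul_succ] at this
    exact this
  rcases ht e with h | h <;> rw [h] <;> constructor <;> omega

/-- SP-H1. -/
theorem inst_valid (h : 3 * m ≤ n) {mu : Fin U → ℕ} (hM : ∀ u, mu u < Y) (hL : 1 ≤ L)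
    (hr : L * Y ^ k ≤ n ^ 300) (ω : Om (E m) k b U) {tiny : E m → ℤ}
    (ht : ∀ e, tiny e = 0 ∨ tiny e = 1) : (instOf h (wgt L Y mu ω tiny)).Valid := by
  apply instOf_valid
  intro e
  obtain ⟨h1, h2⟩ := value_bound hM hL ω ht e
  have h3 : ((L * Y ^ k : ℕ) : ℤ) ≤ (n : ℤ) ^ 300 := by exact_mod_cast hr
  unfold wgt
  rw [abs_mul, abs_of_nonneg h1]
  have h4 : |sg e| ≤ 1 := by
    unfold sg
    split_ifs <;> simp
  calc |sg e| * value L Y mu ω tiny e ≤ 1 * value L Y mu ω tiny e :=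
        mul_le_mul_of_nonneg_right h4 h1
    _ ≤ (n : ℤ) ^ 300 := by rw [one_mul]; exact h2.trans h3

/-- SP-H2. -/
theorem base_no (h : 3 * m ≤ n) (hL : 2 ≤ L) (mu : Fin U → ℕ) (ω : Om (E m) k b U) :
    ¬ (instOf h (wgt L Y mu ω tinyB)).Yes := by
  rw [instOf_yes]
  rintro ⟨T, hT⟩
  rw [Fin.sum_univ_three] at hT
  simp only [wgt, sg, tk, tinyB, value, one_ne_zero, if_true, if_false, Fin.reduceEq, one_mul,
    neg_mul, zero_mul, add_zero] at hT
  have h1 : (L : ℤ) ∣ 1 := by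
    refine ⟨(∑ r : Fin k, (Y : ℤ) ^ (k - 1 - r.val) * (mu (g r ω (1, T 1, T (1 + 1))) : ℤ)) -
      (∑ r : Fin k, (Y : ℤ) ^ (k - 1 - r.val) * (mu (g r ω (0, T 0, T (0 + 1))) : ℤ)), ?_⟩
    linarith
  have h2 := Int.le_of_dvd one_pos h1
  have h3 : (2 : ℤ) ≤ L := by exact_mod_cast hL
  linarith

/-- SP-H3. -/
theorem plant_yes (h : 3 * m ≤ n) (mu : Fin U → ℕ) (ω : Om (E m) k b U) (i j l : Fin m)
    (hd : ω.1 (1, j, l) = ω.1 (0, i, j)) :
    (instOf h (wgt L Y mu ω (tinyP (0, i, j)))).Yes := by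
  rw [instOf_yes]
  refine ⟨![i, j, l], ?_⟩
  rw [Fin.sum_univ_three]
  have e0 : tk ![i, j, l] 0 = ((0, i, j) : E m) := rfl
  have e1 : tk ![i, j, l] 1 = ((1, j, l) : E m) := rfl
  have e2 : tk ![i, j, l] 2 = ((2, l, i) : E m) := rfl
  rw [e0, e1, e2]
  have hg : ∀ r : Fin k, g r ω ((1, j, l) : E m) = g r ω (0, i, j) := by
    intro r
    unfold g
    rw [hd]
  have hne : ((1, j, l) : E m) ≠ (0, i, j) := by
    intro h1
    have := congrArg Prod.fst h1
    simp at this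
  have t0 : tinyP ((0, i, j) : E m) (0, i, j) = 0 := by simp [tinyP]
  have t1 : tinyP ((0, i, j) : E m) (1, j, l) = 0 := by
    unfold tinyP
    rw [if_neg hne]
    simp [tinyB]
  simp only [wgt, sg, value, t0, t1, hg, one_ne_zero, if_true, if_false, Fin.reduceEq, one_mul,
    neg_mul, zero_mul, add_zero]
  ring

end instances

end Pool.Agent.Helper74.SP
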